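import Mathlib

/-! A root which lies in `F(z + q / z)` has a relation in `F` separating `z` from `q / z`. -/

set_option autoImplicit false

open Polynomial Finset

namespace Pool.Agent.Helper87.YV

theorem agree (F : IntermediateField ℚ ℂ) (q : ℕ) (z z' : ℂ) (hq : 0 < q) (hz0 : z ≠ 0) (hzz : z' = q / z)
    (hint : IsIntegral F z) (hroot : aeval z' (minpoly F z) = 0)
    (hzF : z ∈ F ⊔ IntermediateField.adjoin ℚ {z + (q : ℂ) / z}) : z' = z := by
  classical
  have hqC : (q : ℂ) ≠ 0 := by exact_mod_cast hq.ne'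
  let φ : IntermediateField.adjoin F {z} →ₐ[F] ℂ :=
    (IntermediateField.algHomAdjoinIntegralEquiv F hint).symm
      ⟨z', by
        rw [mem_aroots]
        exact ⟨minpoly.ne_zero hint, hroot⟩⟩
  have hφ : φ (IntermediateField.AdjoinSimple.gen F z) = z' :=
    IntermediateField.algHomAdjoinIntegralEquiv_symm_apply_gen F hint _
  let E : IntermediateField ℚ ℂ :=
    { carrier := {x | ∃ hx : x ∈ IntermediateField.adjoin F {z}, φ ⟨x, hx⟩ = x}
      mul_mem' := by
        rintro a b ⟨ha, ha'⟩ ⟨hb, hb'⟩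
        refine ⟨mul_mem ha hb, ?_⟩
        have h := map_mul φ ⟨a, ha⟩ ⟨b, hb⟩
        rw [ha', hb'] at h
        exact h
      one_mem' := ⟨one_mem _, map_one φ⟩
      add_mem' := by
        rintro a b ⟨ha, ha'⟩ ⟨hb, hb'⟩
        refine ⟨add_mem ha hb, ?_⟩
        have h := map_add φ ⟨a, ha⟩ ⟨b, hb⟩
        rw [ha', hb'] at h
        exact h
      zero_mem' := ⟨zero_mem _, map_zero φ⟩
      algebraMap_mem' := by
        intro r
        have h1 : algebraMap ℚ ℂ r ∈ F := F.algebraMap_mem r
        have h2 : algebraMap ℚ ℂ r ∈ IntermediateField.adjoin F {z} :=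
          (IntermediateField.adjoin F {z}).algebraMap_mem ⟨algebraMap ℚ ℂ r, h1⟩
        refine ⟨h2, ?_⟩
        exact φ.commutes ⟨algebraMap ℚ ℂ r, h1⟩
      inv_mem' := by
        rintro a ⟨ha, ha'⟩
        refine ⟨inv_mem ha, ?_⟩
        have h := map_inv₀ φ ⟨a, ha⟩
        rw [ha'] at h
        exact h }
  have hF : F ≤ E := by
    intro x hx
    refine ⟨(IntermediateField.adjoin F {z}).algebraMap_mem ⟨x, hx⟩, ?_⟩
    exact φ.commutes ⟨x, hx⟩
  have hzmem : z ∈ IntermediateField.adjoin F {z} := IntermediateField.mem_adjoin_simple_self F z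
  have hφz : φ ⟨z, hzmem⟩ = z' := hφ
  have hqmem : (q : ℂ) ∈ IntermediateField.adjoin F {z} := natCast_mem _ q
  have hs : z + (q : ℂ) / z ∈ E := by
    have hm : z + (q : ℂ) / z ∈ IntermediateField.adjoin F {z} :=
      add_mem hzmem (div_mem hqmem hzmem)
    refine ⟨hm, ?_⟩
    have e1 : (⟨z + (q : ℂ) / z, hm⟩ : IntermediateField.adjoin F {z}) =
        ⟨z, hzmem⟩ + (q : IntermediateField.adjoin F {z}) / ⟨z, hzmem⟩ := by
      apply Subtype.ext
      push_cast
      rfl
    rw [e1, map_add, map_div₀, map_natCast, hφz, hzz]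
    field_simp
    ring
  have hz : z ∈ E := by
    have h1 : F ⊔ IntermediateField.adjoin ℚ {z + (q : ℂ) / z} ≤ E := by
      refine sup_le hF ?_
      rw [IntermediateField.adjoin_le_iff]
      rintro x hx
      rw [Set.mem_singleton_iff] at hx
      rw [hx]
      exact hs
    exact h1 hzF
  obtain ⟨hx, h⟩ := hz
  exact hφz.symm.trans h

theorem conv_gen (F : IntermediateField ℚ ℂ) (W : ℤ[X]) (hW : W.Monic) (q : ℕ) (hq : 0 < q)
    (z : ℂ) (hz : z ∈ (W.map (Int.castRingHom ℂ)).roots.toFinset) (hz0 : z ≠ 0)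
    (hne : z ^ 2 ≠ q) (hzF : z ∈ F ⊔ IntermediateField.adjoin ℚ {z + (q : ℂ) / z}) :
    ∃ (n : ℂ → ℤ) (N : ℕ), N ≠ 0 ∧
      (∏ w ∈ (W.map (Int.castRingHom ℂ)).roots.toFinset, w ^ n w) ^ N ∈ F ∧ n z ≠ n (q / z) := by
  classical
  have hWC : (W.map (Int.castRingHom ℂ)).Monic := hW.map _
  have hzr : (W.map (Int.castRingHom ℂ)).eval z = 0 := by
    rw [Multiset.mem_toFinset, mem_roots hWC.ne_zero] at hz
    exact hz
  have haZ : aeval z W = 0 := by
    rw [aeval_def]
    rw [eval_map] at hzr
    have h : algebraMap ℤ ℂ = Int.castRingHom ℂ := Subsingleton.elim _ _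
    rw [h]
    exact hzr
  have hintZ : IsIntegral ℤ z := ⟨W, hW, haZ⟩
  have hint : IsIntegral F z := hintZ.tower_top
  set g : F[X] := minpoly F z with hg
  have hgm : g.Monic := minpoly.monic hint
  have hgirr : Irreducible g := minpoly.irreducible hint
  have hgsep : g.Separable := hgirr.separable
  have hgC : (g.map (algebraMap F ℂ)).Monic := hgm.map _
  have hnd : (g.map (algebraMap F ℂ)).roots.Nodup := nodup_roots hgsep.map
  have hsplit : (g.map (algebraMap F ℂ)).Splits := IsAlgClosed.splits _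
  -- the product of the roots
  have hprod : (g.map (algebraMap F ℂ)).roots.prod ∈ F := by
    have h1 := hsplit.coeff_zero_eq_prod_roots_of_monic hgC
    rw [coeff_map] at h1
    have h2 : (g.map (algebraMap F ℂ)).roots.prod =
        (-1) ^ (g.map (algebraMap F ℂ)).natDegree * algebraMap F ℂ (g.coeff 0) := by
      rw [h1, ← mul_assoc, ← mul_pow]
      simp
    rw [h2]
    exact mul_mem (pow_mem (neg_mem (one_mem F)) _) (g.coeff 0).2
  have hdvd : g ∣ W.map (Int.castRingHom F) := by
    apply minpoly.dvd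
    rw [aeval_def, eval₂_map]
    rw [aeval_def] at haZ
    have h : (algebraMap F ℂ).comp (Int.castRingHom F) = algebraMap ℤ ℂ := Subsingleton.elim _ _
    rw [h]
    exact haZ
  have hsub : (g.map (algebraMap F ℂ)).roots.toFinset =
      (W.map (Int.castRingHom ℂ)).roots.toFinset.filter (fun w => aeval w g = 0) := by
    ext w
    rw [Multiset.mem_toFinset, mem_filter, Multiset.mem_toFinset, mem_roots hgC.ne_zero,
      mem_roots hWC.ne_zero, IsRoot.def, IsRoot.def, eval_map, ← aeval_def]
    constructor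
    · intro h
      refine ⟨?_, h⟩
      obtain ⟨k, hk⟩ := hdvd
      have h2 : aeval w (W.map (Int.castRingHom F)) = 0 := by
        rw [hk, map_mul, h, zero_mul]
      rw [aeval_def, eval₂_map] at h2
      have h3 : (algebraMap F ℂ).comp (Int.castRingHom F) = Int.castRingHom ℂ :=
        Subsingleton.elim _ _
      rw [h3] at h2
      rw [eval_map]
      exact h2
    · exact fun h => h.2
  refine ⟨fun w => if aeval w g = 0 then 1 else 0, 1, one_ne_zero, ?_, ?_⟩
  · rw [pow_one]
    have h1 : ∏ w ∈ (W.map (Int.castRingHom ℂ)).roots.toFinset,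
        w ^ (if aeval w g = 0 then (1 : ℤ) else 0) = (g.map (algebraMap F ℂ)).roots.prod := by
      have h2 : ∀ w ∈ (W.map (Int.castRingHom ℂ)).roots.toFinset,
          w ^ (if aeval w g = 0 then (1 : ℤ) else 0) = if aeval w g = 0 then w else 1 := by
        intro w _
        split_ifs <;> simp
      rw [Finset.prod_congr rfl h2, ← Finset.prod_filter, ← hsub,
        Finset.prod_multiset_count_of_subset _ _ (Finset.Subset.refl _)]
      apply Finset.prod_congr rfl
      intro w hw
      rw [Multiset.count_eq_one_of_mem hnd (Multiset.mem_toFinset.1 hw), pow_one]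
    rw [h1]
    exact hprod
  · have e1 : aeval z g = 0 := minpoly.aeval F z
    have e2 : aeval ((q : ℂ) / z) g ≠ 0 := by
      intro h
      have h2 := agree F q z ((q : ℂ) / z) hq hz0 rfl hint h hzF
      apply hne
      rw [div_eq_iff hz0] at h2
      rw [pow_two]
      exact h2.symm
    simp only [e1, e2, if_true, if_false]
    norm_num

end Pool.Agent.Helper87.YV
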